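import Pool.Agent.Helper23.QF.Goals

set_option autoImplicit false

open scoped Matrix

namespace Pool.Agent.Helper8.QF

open Pool.Agent.Helper23.QF

theorem M_cons00 (x : ℕ) (w : List ℕ) : M (x :: w) 0 0 = x * M w 0 0 + M w 1 0 := by
  rw [M_cons]; simp [mat, Matrix.mul_apply, Fin.sum_univ_two]

theorem M_cons01 (x : ℕ) (w : List ℕ) : M (x :: w) 0 1 = x * M w 0 1 + M w 1 1 := by
  rw [M_cons]; simp [mat, Matrix.mul_apply, Fin.sum_univ_two]

theorem M_cons10 (x : ℕ) (w : List ℕ) : M (x :: w) 1 0 = M w 0 0 := by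
  rw [M_cons]; simp [mat, Matrix.mul_apply, Fin.sum_univ_two]

theorem M_cons11 (x : ℕ) (w : List ℕ) : M (x :: w) 1 1 = M w 0 1 := by
  rw [M_cons]; simp [mat, Matrix.mul_apply, Fin.sum_univ_two]

theorem ext_of (A B : Matrix (Fin 2) (Fin 2) ℤ) (h00 : A 0 0 = B 0 0) (h01 : A 0 1 = B 0 1)
    (h10 : A 1 0 = B 1 0) (h11 : A 1 1 = B 1 1) : A = B := by
  ext i j
  fin_cases i <;> fin_cases j
  · exact h00
  · exact h01
  · exact h10
  · exact h11

/-- if the first letters differ in this order, a contradiction -/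
theorem aux_lt (x y : ℕ) (w v : List ℕ) (hw : ∀ z ∈ w, 1 ≤ z) (hv : ∀ z ∈ v, 1 ≤ z)
    (h : M (x :: w) = M (y :: v)) (hxy : x < y) : False := by
  obtain ⟨p1, p2, p3, p4, p5, p6⟩ := M_entries w hw
  obtain ⟨q1, q2, q3, q4, q5, q6⟩ := M_entries v hv
  have e00 : (x : ℤ) * M w 0 0 + M w 1 0 = y * M v 0 0 + M v 1 0 := by
    rw [← M_cons00, ← M_cons00, h]
  have e10 : M w 0 0 = M v 0 0 := by rw [← M_cons10 x w, ← M_cons10 y v, h]
  have e11 : M w 0 1 = M v 0 1 := by rw [← M_cons11 x w, ← M_cons11 y v, h]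
  have hxy' : (x : ℤ) + 1 ≤ y := by exact_mod_cast hxy
  have h1 : ((x : ℤ) + 1) * M v 0 0 ≤ y * M v 0 0 :=
    mul_le_mul_of_nonneg_right hxy' (by linarith)
  rw [e10] at e00
  have hr : M v 1 0 = 0 := by nlinarith
  have hr2 : M w 1 0 = M w 0 0 := by nlinarith
  have hvn : v = [] := by
    cases v with
    | nil => rfl
    | cons z v' =>
      exfalso
      rw [M_cons10] at hr
      have := (M_entries v' (fun t ht => hv t (List.mem_cons_of_mem _ ht))).1
      omega
  subst hvn
  have hv01 : M ([] : List ℕ) 0 1 = 0 := by simp [M]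
  rw [hv01] at e11
  have hwn : w = [] := by
    by_contra hne
    rw [if_neg hne, e11] at p6
    have h11 : M w 1 1 = 0 := by linarith
    have hd := M_det w
    rw [Matrix.det_fin_two, e11, h11] at hd
    have h2 : ((-1 : ℤ)) ^ w.length ≠ 0 := pow_ne_zero _ (by norm_num)
    apply h2
    rw [← hd]; ring
  subst hwn
  have h10 : M ([] : List ℕ) 1 0 = 0 := by simp [M]
  rw [h10] at hr2
  omega

theorem M_inj : ∀ (w v : List ℕ), (∀ z ∈ w, 1 ≤ z) → (∀ z ∈ v, 1 ≤ z) → M w = M v → w = v := by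
  intro w
  induction w with
  | nil =>
    intro v _ hv h
    cases v with
    | nil => rfl
    | cons y v =>
      exfalso
      have h10 : M ([] : List ℕ) 1 0 = 0 := by simp [M]
      rw [h, M_cons10] at h10
      have := (M_entries v (fun t ht => hv t (List.mem_cons_of_mem _ ht))).1
      omega
  | cons x w ih =>
    intro v hw hv h
    cases v with
    | nil =>
      exfalso
      have h10 : M ([] : List ℕ) 1 0 = 0 := by simp [M]
      rw [← h, M_cons10] at h10
      have := (M_entries w (fun t ht => hw t (List.mem_cons_of_mem _ ht))).1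
      omega
    | cons y v =>
      have hw' : ∀ z ∈ w, 1 ≤ z := fun t ht => hw t (List.mem_cons_of_mem _ ht)
      have hv' : ∀ z ∈ v, 1 ≤ z := fun t ht => hv t (List.mem_cons_of_mem _ ht)
      rcases lt_trichotomy x y with hlt | heq | hgt
      · exact (aux_lt x y w v hw' hv' h hlt).elim
      · subst heq
        have e10 : M w 0 0 = M v 0 0 := by rw [← M_cons10 x w, ← M_cons10 x v, h]
        have e11 : M w 0 1 = M v 0 1 := by rw [← M_cons11 x w, ← M_cons11 x v, h]
        have e00 : (x : ℤ) * M w 0 0 + M w 1 0 = x * M v 0 0 + M v 1 0 := by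
          rw [← M_cons00, ← M_cons00, h]
        have e01 : (x : ℤ) * M w 0 1 + M w 1 1 = x * M v 0 1 + M v 1 1 := by
          rw [← M_cons01, ← M_cons01, h]
        rw [e10] at e00
        rw [e11] at e01
        rw [ih v hw' hv' (ext_of _ _ e10 e11 (by linarith) (by linarith))]
      · exact (aux_lt y x v w hv' hw' h.symm hgt).elim

theorem eq_of_data (a : ℕ) (t : ℤ) (u v : List ℕ) (ha : 0 < a) (hu : ∀ z ∈ u, 1 ≤ z)
    (hv : ∀ z ∈ v, 1 ≤ z) (hdet : (M u).det = (M v).det) (htu : tr a u = t) (htv : tr a v = t)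
    (h00 : M u 0 0 = M v 0 0)
    (h01 : (a : ℤ) * M u 0 0 + 2 * M u 0 1 = a * M v 0 0 + 2 * M v 0 1) : u = v := by
  obtain ⟨p1, p2, p3, p4, p5, p6⟩ := M_entries u hu
  obtain ⟨q1, q2, q3, q4, q5, q6⟩ := M_entries v hv
  have ha' : (1 : ℤ) ≤ a := by exact_mod_cast ha
  have h01' : M u 0 1 = M v 0 1 := by
    rw [h00] at h01
    linarith
  have e1 := tr_sub a u
  have e2 := tr_sub a v
  rw [htu, hdet, ← htv, e2] at e1
  have hpos : 0 < (a : ℤ) * M v 0 0 + 2 * M v 0 1 := by nlinarith
  rw [h01] at e1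
  have h3 := mul_left_cancel₀ hpos.ne' e1
  have h10 : M u 1 0 = M v 1 0 := by
    rw [h00] at h3
    linarith
  have h11 : M u 1 1 = M v 1 1 := by
    rw [Matrix.det_fin_two, Matrix.det_fin_two, h00, h01', h10] at hdet
    have h4 : M v 0 0 * M u 1 1 = M v 0 0 * M v 1 1 := by linarith
    exact mul_left_cancel₀ (by omega) h4
  exact M_inj u v hu hv (ext_of _ _ h00 h01' h10 h11)

theorem toNat_mem (x : ℤ) (n : ℕ) (hn : n ≠ 0) (hx : 0 ≤ x) (h : x ∣ (n : ℤ)) :
    x.toNat ∈ n.divisors := by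
  rw [Nat.mem_divisors]
  refine ⟨?_, hn⟩
  rw [← Int.natCast_dvd_natCast, Int.toNat_of_nonneg hx]
  exact h

theorem gMULT : GMULT := by
  classical
  intro a b t S ha hb ht hS
  have hlet : ∀ u ∈ S, ∀ z ∈ u, 1 ≤ z := by
    intro u hu z hz
    rcases (hS u hu).1 z hz with h | h <;> omega
  have hsplit : S.card = (S.filter (fun u => (M u).det = 1)).card +
      (S.filter (fun u => ¬ (M u).det = 1)).card :=
    (Finset.card_filter_add_card_filter_not _).symm
  have ha' : (1 : ℤ) ≤ a := by exact_mod_cast ha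
  have hc1 : (S.filter (fun u => (M u).det = 1)).card ≤
      (t + 2).divisors.card * (t - 2).divisors.card := by
    rw [← Finset.card_product]
    refine Finset.card_le_card_of_injOn
      (fun u => ((M u 0 0).toNat, ((a : ℤ) * M u 0 0 + 2 * M u 0 1).toNat)) ?_ ?_
    · intro u hu
      have hu' := Finset.mem_filter.mp (Finset.mem_coe.mp hu)
      obtain ⟨p1, p2, p3, p4, p5, p6⟩ := M_entries u (hlet u hu'.1)
      have e1 := tr_add a u
      have e2 := tr_sub a u
      rw [hu'.2, (hS u hu'.1).2] at e1 e2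
      simp only [Finset.coe_product, Set.mem_prod, Finset.mem_coe]
      refine ⟨toNat_mem _ _ (by omega) (by linarith) ?_, toNat_mem _ _ (by omega) (by nlinarith) ?_⟩
      · refine Dvd.intro _ (e1.symm.trans ?_)
        push_cast; ring
      · refine Dvd.intro _ (e2.symm.trans ?_)
        rw [Nat.cast_sub (by omega)]; push_cast; ring
    · intro u hu v hv h
      have hu' := Finset.mem_filter.mp (Finset.mem_coe.mp hu)
      have hv' := Finset.mem_filter.mp (Finset.mem_coe.mp hv)
      obtain ⟨p1, p2, p3, p4, p5, p6⟩ := M_entries u (hlet u hu'.1)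
      obtain ⟨q1, q2, q3, q4, q5, q6⟩ := M_entries v (hlet v hv'.1)
      simp only [Prod.mk.injEq] at h
      have hp : 0 ≤ (a : ℤ) * M u 0 0 + 2 * M u 0 1 := by nlinarith
      have hq : 0 ≤ (a : ℤ) * M v 0 0 + 2 * M v 0 1 := by nlinarith
      refine eq_of_data a t u v ha (hlet u hu'.1) (hlet v hv'.1) (by rw [hu'.2, hv'.2])
        (hS u hu'.1).2 (hS v hv'.1).2 ?_ ?_
      · rw [← Int.toNat_of_nonneg (by linarith : 0 ≤ M u 0 0), h.1,
          Int.toNat_of_nonneg (by linarith : 0 ≤ M v 0 0)]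
      · rw [← Int.toNat_of_nonneg hp, h.2, Int.toNat_of_nonneg hq]
  have hc2 : (S.filter (fun u => ¬ (M u).det = 1)).card ≤
      (t + 2).divisors.card * (t - 2).divisors.card := by
    rw [← Finset.card_product]
    have hdet : ∀ u, ¬ (M u).det = 1 → (M u).det = -1 := by
      intro u hu
      rw [M_det] at hu ⊢
      rcases neg_one_pow_eq_or ℤ u.length with h | h
      · exact absurd h hu
      · exact h
    refine Finset.card_le_card_of_injOn
      (fun u => (((a : ℤ) * M u 0 0 + 2 * M u 0 1).toNat, (M u 0 0).toNat)) ?_ ?_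
    · intro u hu
      have hu' := Finset.mem_filter.mp (Finset.mem_coe.mp hu)
      obtain ⟨p1, p2, p3, p4, p5, p6⟩ := M_entries u (hlet u hu'.1)
      have e1 := tr_add a u
      have e2 := tr_sub a u
      rw [hdet u hu'.2, (hS u hu'.1).2] at e1 e2
      simp only [Finset.coe_product, Set.mem_prod, Finset.mem_coe]
      refine ⟨toNat_mem _ _ (by omega) (by nlinarith) ?_, toNat_mem _ _ (by omega) (by linarith) ?_⟩
      · refine Dvd.intro _ (e2.symm.trans ?_)
        push_cast; ring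
      · refine Dvd.intro _ (e1.symm.trans ?_)
        rw [Nat.cast_sub (by omega)]; push_cast; ring
    · intro u hu v hv h
      have hu' := Finset.mem_filter.mp (Finset.mem_coe.mp hu)
      have hv' := Finset.mem_filter.mp (Finset.mem_coe.mp hv)
      obtain ⟨p1, p2, p3, p4, p5, p6⟩ := M_entries u (hlet u hu'.1)
      obtain ⟨q1, q2, q3, q4, q5, q6⟩ := M_entries v (hlet v hv'.1)
      simp only [Prod.mk.injEq] at h
      have hp : 0 ≤ (a : ℤ) * M u 0 0 + 2 * M u 0 1 := by nlinarith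
      have hq : 0 ≤ (a : ℤ) * M v 0 0 + 2 * M v 0 1 := by nlinarith
      refine eq_of_data a t u v ha (hlet u hu'.1) (hlet v hv'.1)
        (by rw [hdet u hu'.2, hdet v hv'.2])
        (hS u hu'.1).2 (hS v hv'.1).2 ?_ ?_
      · rw [← Int.toNat_of_nonneg (by linarith : 0 ≤ M u 0 0), h.2,
          Int.toNat_of_nonneg (by linarith : 0 ≤ M v 0 0)]
      · rw [← Int.toNat_of_nonneg hp, h.1, Int.toNat_of_nonneg hq]
  rw [hsplit]
  linarith

end Pool.Agent.Helper8.QF
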